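import Mathlib

namespace Pool.Agent.Results.MP_6238b5_al.Twist

open Real

/-- Euclidean three-space. -/
abbrev E := EuclideanSpace ℝ (Fin 3)

/-- The unit sphere. -/
abbrev S2 := Metric.sphere (0 : E) 1

/-- Rodrigues' formula: the image of `u` under the rotation by angle `ψ` about the unit vector `v`,
in the positive sense. -/
noncomputable def rot (ψ : ℝ) (v u : E) : Fin 3 → ℝ :=
  cos ψ • u.ofLp + sin ψ • crossProduct v.ofLp u.ofLp +
    ((1 - cos ψ) * (v.ofLp ⬝ᵥ u.ofLp)) • v.ofLp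

lemma mem_iff (u : E) : u ∈ Metric.sphere (0 : E) 1 ↔ u 0 ^ 2 + u 1 ^ 2 + u 2 ^ 2 = 1 := by
  rw [mem_sphere_zero_iff_norm, EuclideanSpace.norm_eq, Real.sqrt_eq_one, Fin.sum_univ_three]
  simp

noncomputable def tw (t : ℝ) (u : S2) : S2 :=
  ⟨!₂[cos t * u.1 0 - sin t * u.1 1, sin t * u.1 0 + cos t * u.1 1, u.1 2], by
    have h := (mem_iff _).1 u.2
    rw [mem_iff]
    simp only [Matrix.cons_val_zero, Matrix.cons_val_one, Matrix.cons_val]
    have := sin_sq_add_cos_sq t
    linear_combination h + (u.1 0 ^ 2 + u.1 1 ^ 2) * this⟩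

lemma tw2 (t : ℝ) (u : S2) : (tw t u).1 2 = u.1 2 := rfl

lemma tw_tw (s t : ℝ) (u : S2) : tw s (tw t u) = tw (s + t) u := by
  ext i
  fin_cases i <;> simp [tw, cos_add, sin_add] <;> ring

lemma tw_zero (u : S2) : tw 0 u = u := by
  ext i
  fin_cases i <;> simp [tw]

noncomputable def op (u v : S2) : S2 := tw (u.1 2 - v.1 2) u

noncomputable def pt (i : Fin 3) : S2 := ⟨EuclideanSpace.single i 1, by simp⟩

/-- There is a topological quandle structure on the 2-sphere that is isomorphic neither to the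
trivial quandle nor to a spherical quandle. -/
theorem result : ∃ m : S2 → S2 → S2, Continuous (fun p : S2 × S2 => m p.1 p.2) ∧
    (∀ x, m x x = x) ∧ (∀ y, Function.Bijective fun x => m x y) ∧
    (∀ x y z, m (m x y) z = m (m x z) (m y z)) ∧
    (¬ ∃ h : S2 ≃ₜ S2, ∀ u v, h (m u v) = h u) ∧
    ∀ ψ : ℝ, 0 < ψ → ψ < 2 * π →
      ¬ ∃ h : S2 ≃ₜ S2, ∀ u v, (h (m u v)).1.ofLp = rot ψ (h v).1 (h u).1 := by
  refine ⟨op, ?_, fun x => by simp [op, tw_zero], fun y => ?_, fun x y z => ?_, ?_, ?_⟩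
  · refine Continuous.subtype_mk ?_ _
    refine (PiLp.continuous_toLp 2 _).comp (continuous_pi fun i => ?_)
    fin_cases i <;> simp <;> fun_prop
  · refine Function.bijective_iff_has_inverse.2 ⟨fun x => tw (y.1 2 - x.1 2) x, fun x => ?_,
      fun x => ?_⟩ <;> simp [op, tw2, tw_tw, tw_zero]
  · simp only [op, tw2, tw_tw]
    rw [add_comm]
  · rintro ⟨h, hh⟩
    have := congrArg (fun w : S2 => w.1 1) (h.injective (hh (pt 0) (pt 2)))
    simp [op, tw, pt] at this
    exact (sin_pos_of_pos_of_lt_pi one_pos (by linarith [pi_gt_three])).ne' this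
  · rintro ψ h0 h1 ⟨h, hh⟩
    have hc : cos ψ ≠ 1 := fun hc => by
      have := (cos_eq_one_iff_of_lt_of_lt (by linarith [pi_pos]) h1).1 hc
      linarith
    have hn : ∀ v, op (pt 2) v = pt 2 := fun v => by
      ext i
      fin_cases i <;> simp [op, tw, pt]
    have hw := (mem_iff _).1 (h (pt 2)).2
    have a := hh (pt 2) (h.symm (pt 0))
    have b := hh (pt 2) (h.symm (pt 1))
    rw [hn, h.apply_symm_apply] at a b
    set w := (h (pt 2)).1
    have a1 := congrFun a 1
    have a2 := congrFun a 2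
    have b0 := congrFun b 0
    have b2 := congrFun b 2
    simp [rot, pt, crossProduct, Matrix.vecHead, Matrix.vecTail] at a1 a2 b0 b2
    have e1 : (1 - cos ψ) * (w 1 ^ 2 + w 2 ^ 2) = 0 := by
      linear_combination w 1 * a1 + w 2 * a2
    have e2 : (1 - cos ψ) * (w 0 ^ 2 + w 2 ^ 2) = 0 := by
      linear_combination w 0 * b0 + w 2 * b2
    have f1 := (mul_eq_zero.1 e1).resolve_left (sub_ne_zero.2 hc.symm)
    have f2 := (mul_eq_zero.1 e2).resolve_left (sub_ne_zero.2 hc.symm)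
    nlinarith [sq_nonneg (w 2)]

end Pool.Agent.Results.MP_6238b5_al.Twist
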